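import Pool.Agent.Helper81.Tok2.Goals

/-!
# FCAST: the numeric extension is the extension, the numeric folding is the folding
-/

namespace Pool.Agent.Helper85.Tok2

open Pool.Agent.Helper65.LinSpace Finset Pool.Agent.Helper28.Ram Pool.Agent.Helper81.Tok2

theorem FCAST : Pool.Agent.Helper81.Tok2.FCAST_stmt := by
  constructor
  · intro p N hpr F q X X' hX
    unfold fhG fhat
    rw [ZMod.natCast_mod, Nat.cast_sum]
    refine sum_congr rfl fun u _ => ?_
    rw [Nat.cast_mul, ZMod.natCast_mod, Nat.cast_prod]
    unfold bitZ
    congr 1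
    refine prod_congr rfl fun o ho => ?_
    obtain ⟨h1, h2⟩ := hX o (mem_range.1 ho)
    rcases dig_two u o with h3 | h3
    · rw [h3, if_neg (by norm_num), ifz, if_pos rfl, Nat.cast_sub (by omega), h2]
      push_cast
      rw [ZMod.natCast_self, zero_add]
    · rw [h3, if_pos rfl, ifz, if_neg (by norm_num), h2]
  · intro m p w c u hpr sa sl sa' sl' h
    induction u with
    | zero => rfl
    | succ u ih =>
      have ih' := ih fun t ht => h t (by omega)
      obtain ⟨h1, h2⟩ := h u (by omega)
      unfold Pool.Agent.Helper81.Tok2.Mach.cvN at ih' ⊢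
      rw [nrec_succ]
      unfold Pool.Agent.Helper81.Tok2.Mach.cv
      rw [ZMod.natCast_mod, Nat.cast_add, Nat.cast_mul, ih', h2]
      congr 1
      unfold ifz
      split_ifs
      · exact Nat.cast_zero
      · exact h1

end Pool.Agent.Helper85.Tok2
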